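import Mathlib

/-!
MP_8958e8_nt, long windows: the elementary inequality for a finite weighted set of points and a subset.
-/

set_option autoImplicit false

open Finset MeasureTheory

namespace Pool.Agent.Helper57.WN

/-- hat function of height `l` -/
noncomputable def hat (l y : ℝ) : ℝ := max (l - |y|) 0

/-- indicator of `[x - l, x)` -/
noncomputable def bx (l x t : ℝ) : ℝ := Set.indicator (Set.Ico (x - l) x) (fun _ => (1:ℝ)) t

/-- weighted number of points in `(t, t + l]` -/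
noncomputable def cnt {ι : Type*} (s : Finset ι) (x w : ι → ℝ) (l t : ℝ) : ℝ := ∑ i ∈ s, w i * bx l (x i) t

lemma bx_nonneg (l x t : ℝ) : 0 ≤ bx l x t := by
  unfold bx
  exact Set.indicator_nonneg (fun _ _ => zero_le_one) _

lemma bx_memLp (l x : ℝ) : MemLp (bx l x) 2 volume := by
  have h := memLp_indicator_const (μ := (volume : Measure ℝ)) 2 (measurableSet_Ico (a := x - l) (b := x)) (1:ℝ)
    (Or.inr (by simp [Real.volume_Ico]))
  exact h

lemma bx_integrable (l x : ℝ) : Integrable (bx l x) := by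
  have h : Integrable (Set.indicator (Set.Ico (x - l) x) (fun _ : ℝ => (1:ℝ))) :=
    (integrable_indicator_iff measurableSet_Ico).2 (integrableOn_const (by simp [Real.volume_Ico]))
  exact h

lemma bx_int {l : ℝ} (hl : 0 ≤ l) (x : ℝ) : ∫ t, bx l x t = l := by
  show ∫ t, Set.indicator (Set.Ico (x - l) x) (fun _ => (1:ℝ)) t = l
  rw [integral_indicator_const _ measurableSet_Ico, Measure.real, Real.volume_Ico, smul_eq_mul, mul_one,
    ENNReal.toReal_ofReal (by linarith)]
  ring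

lemma box_mul (l x y a : ℝ) : ∫ t, bx l x t * bx l y (t + a) = hat l (x - y + a) := by
  have h1 : (fun t => bx l x t * bx l y (t + a)) =
      Set.indicator (Set.Ico (max (x - l) (y - l - a)) (min x (y - a))) (fun _ => (1:ℝ)) := by
    funext t
    unfold bx
    by_cases h : t ∈ Set.Ico (max (x - l) (y - l - a)) (min x (y - a))
    · rw [Set.indicator_of_mem h]
      rw [Set.mem_Ico, max_le_iff, lt_min_iff] at h
      rw [Set.indicator_of_mem (show t ∈ Set.Ico (x - l) x from ⟨h.1.1, h.2.1⟩),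
        Set.indicator_of_mem (show t + a ∈ Set.Ico (y - l) y from ⟨by linarith [h.1.2], by linarith [h.2.2]⟩), one_mul]
    · rw [Set.indicator_of_notMem h]
      by_cases h2 : t ∈ Set.Ico (x - l) x
      · by_cases h3 : t + a ∈ Set.Ico (y - l) y
        · exfalso
          apply h
          rw [Set.mem_Ico, max_le_iff, lt_min_iff]
          exact ⟨⟨h2.1, by linarith [h3.1]⟩, h2.2, by linarith [h3.2]⟩
        · rw [Set.indicator_of_notMem h3, mul_zero]
      · rw [Set.indicator_of_notMem h2, zero_mul]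
  rw [h1, integral_indicator_const _ measurableSet_Ico, Measure.real, Real.volume_Ico, smul_eq_mul, mul_one,
    ENNReal.toReal_ofReal']
  unfold hat
  congr 1
  rcases le_total x (y - a) with h | h
  · rw [min_eq_left h, max_eq_right (by linarith), abs_of_nonpos (by linarith)]
    ring
  · rw [min_eq_right h, max_eq_left (by linarith), abs_of_nonneg (by linarith)]
    ring

section
variable {ι : Type*} (s : Finset ι) (x w : ι → ℝ) (l : ℝ)

lemma cnt_memLp : MemLp (cnt s x w l) 2 volume := by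
  have h := memLp_finsetSum s (f := fun i t => w i * bx l (x i) t) (μ := (volume : Measure ℝ)) (p := 2)
    (fun i _ => (bx_memLp l (x i)).const_mul (w i))
  exact h

lemma cnt_integrable : Integrable (cnt s x w l) := by
  have h := integrable_finsetSum s (f := fun i t => w i * bx l (x i) t) (μ := (volume : Measure ℝ))
    (fun i _ => (bx_integrable l (x i)).const_mul (w i))
  exact h

lemma cnt_int {l : ℝ} (hl : 0 ≤ l) : ∫ t, cnt s x w l t = l * ∑ i ∈ s, w i := by
  unfold cnt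
  rw [integral_finsetSum _ fun i _ => (bx_integrable l (x i)).const_mul (w i), Finset.mul_sum]
  refine Finset.sum_congr rfl fun i _ => ?_
  rw [integral_const_mul, bx_int hl, mul_comm]

lemma cnt_mul_int {κ : Type*} (s' : Finset κ) (x' w' : κ → ℝ) (a : ℝ) :
    ∫ t, cnt s x w l t * cnt s' x' w' l (t + a) = ∑ i ∈ s, ∑ j ∈ s', w i * w' j * hat l (x i - x' j + a) := by
  have h0 : ∀ i j, Integrable (fun t => (w i * bx l (x i) t) * (w' j * bx l (x' j) (t + a))) := fun i j =>
    ((bx_memLp l (x i)).const_mul (w i)).integrable_mul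
      (((bx_memLp l (x' j)).comp_measurePreserving (measurePreserving_add_right volume a)).const_mul (w' j))
  have h1 : (fun t => cnt s x w l t * cnt s' x' w' l (t + a)) =
      fun t => ∑ i ∈ s, ∑ j ∈ s', (w i * bx l (x i) t) * (w' j * bx l (x' j) (t + a)) := by
    funext t
    unfold cnt
    rw [Finset.sum_mul_sum]
  rw [h1, integral_finsetSum _ fun i _ => integrable_finsetSum _ fun j _ => h0 i j]
  refine Finset.sum_congr rfl fun i _ => ?_
  rw [integral_finsetSum _ fun j _ => h0 i j]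
  refine Finset.sum_congr rfl fun j _ => ?_
  rw [← box_mul, ← integral_const_mul]
  congr 1
  funext t
  ring

lemma cnt_nonneg (hw : ∀ i ∈ s, 0 ≤ w i) (t : ℝ) : 0 ≤ cnt s x w l t :=
  Finset.sum_nonneg fun i hi => mul_nonneg (hw i hi) (bx_nonneg l (x i) t)

lemma cnt_supp {S : ℝ} (hx : ∀ i ∈ s, 0 ≤ x i ∧ x i ≤ S) {t : ℝ} (ht : t ∉ Set.Ico (-l) S) : cnt s x w l t = 0 := by
  unfold cnt
  refine Finset.sum_eq_zero fun i hi => ?_
  unfold bx
  rw [Set.indicator_of_notMem, mul_zero]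
  intro h
  have := hx i hi
  exact ht ⟨by linarith [h.1], by linarith [h.2]⟩

end

/-- linear combinations of five integrable functions -/
lemma int5 {f1 f2 f3 f4 f5 : ℝ → ℝ} (h1 : Integrable f1) (h2 : Integrable f2) (h3 : Integrable f3) (h4 : Integrable f4)
    (h5 : Integrable f5) (c1 c2 c3 c4 c5 : ℝ) :
    Integrable (fun t => c1 * f1 t - c2 * f2 t - c3 * f3 t - c4 * f4 t - c5 * f5 t) ∧
    ∫ t, (c1 * f1 t - c2 * f2 t - c3 * f3 t - c4 * f4 t - c5 * f5 t) =
      c1 * (∫ t, f1 t) - c2 * (∫ t, f2 t) - c3 * (∫ t, f3 t) - c4 * (∫ t, f4 t) - c5 * (∫ t, f5 t) := by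
  have k1 := h1.const_mul c1
  have k2 := h2.const_mul c2
  have k3 := h3.const_mul c3
  have k4 := h4.const_mul c4
  have k5 := h5.const_mul c5
  have m2 : Integrable (fun t => c1 * f1 t - c2 * f2 t) := k1.sub k2
  have m3 : Integrable (fun t => c1 * f1 t - c2 * f2 t - c3 * f3 t) := m2.sub k3
  have m4 : Integrable (fun t => c1 * f1 t - c2 * f2 t - c3 * f3 t - c4 * f4 t) := m3.sub k4
  refine ⟨m4.sub k5, ?_⟩
  rw [integral_sub m4 k5, integral_sub m3 k4, integral_sub m2 k3, integral_sub k1 k2]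
  simp only [integral_const_mul]

lemma shift_int {f : ℝ → ℝ} (a : ℝ) : ∫ t, f (t + a) = ∫ t, f t := integral_add_right_eq_self f a

section
variable {ι : Type*} (Z s : Finset ι) (x m : ι → ℝ) (l S : ℝ)

/-- one mixed term -/
lemma mixed (hs : s ⊆ Z) (hm : ∀ i ∈ Z, 1 ≤ m i) (hl : 0 < l) (hx : ∀ i ∈ Z, 0 ≤ x i ∧ x i ≤ S)
    {δ : ℝ} (hδ : 0 < δ) (a c d : ℝ) (hcd : c ≤ d) (hB : ∀ t ∈ Set.Ico (-l) S, t ∉ Set.Ico c d → t + a ∈ Set.Ico (-l) S) :
    l * (l * s.card) - 3 / 2 * l ^ 2 * (d - c) -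
      (1 / 2) * (∫ t, (cnt Z x m l t - l * bx (S + l) S t) ^ 2) - δ / 2 * (∫ t, cnt Z x m l t ^ 2) -
      1 / (2 * δ) * (∫ t, (cnt Z x m l t - l * bx (S + l) S t) ^ 2) ≤
      ∫ t, cnt s x (fun _ => 1) l t * cnt Z x m l (t + a) := by
  obtain ⟨n, hn⟩ : ∃ n : ℝ → ℝ, n = cnt s x (fun _ => 1) l := ⟨_, rfl⟩
  obtain ⟨N, hN⟩ : ∃ N : ℝ → ℝ, N = cnt Z x m l := ⟨_, rfl⟩
  obtain ⟨E, hE⟩ : ∃ E : ℝ → ℝ, E = fun t => N t - l * bx (S + l) S t := ⟨_, rfl⟩
  have nL : MemLp n 2 volume := by rw [hn]; exact cnt_memLp _ _ _ _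
  have nI : Integrable n := by rw [hn]; exact cnt_integrable _ _ _ _
  have NL : MemLp N 2 volume := by rw [hN]; exact cnt_memLp _ _ _ _
  have EL : MemLp E 2 volume := by
    rw [hE]
    exact NL.sub ((bx_memLp (S + l) S).const_mul l)
  have hmp := measurePreserving_add_right (volume : Measure ℝ) a
  have ELa : MemLp (fun t => E (t + a)) 2 volume := EL.comp_measurePreserving hmp
  have NLa : MemLp (fun t => N (t + a)) 2 volume := NL.comp_measurePreserving hmp
  have n0 : ∀ t, 0 ≤ n t := by rw [hn]; exact cnt_nonneg _ _ _ _ (fun _ _ => zero_le_one)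
  have nN : ∀ t, n t ≤ N t := by
    intro t
    rw [hn, hN]
    unfold cnt
    refine (Finset.sum_le_sum fun i hi => ?_).trans (Finset.sum_le_sum_of_subset_of_nonneg hs fun i hi _ => ?_)
    · exact mul_le_mul_of_nonneg_right (hm i (hs hi)) (bx_nonneg _ _ _)
    · exact mul_nonneg (zero_le_one.trans (hm i hi)) (bx_nonneg _ _ _)
  have nsupp : ∀ t, t ∉ Set.Ico (-l) S → n t = 0 := by
    intro t ht
    rw [hn]
    exact cnt_supp _ _ _ _ (fun i hi => hx i (hs hi)) ht
  have eB : ∀ t, bx (S + l) S t = Set.indicator (Set.Ico (-l) S) (fun _ => (1:ℝ)) t := by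
    intro t
    unfold bx
    rw [show S - (S + l) = -l by ring]
  -- the integrable functions
  have i2 : Integrable (fun t => bx (d - c) d t) := bx_integrable _ _
  have i3 : Integrable (fun t => E t ^ 2) := EL.integrable_sq
  have i4 : Integrable (fun t => N t ^ 2) := NL.integrable_sq
  have i5 : Integrable (fun t => E (t + a) ^ 2) := ELa.integrable_sq
  obtain ⟨k1, k2⟩ := int5 nI i2 i3 i4 i5 l (3 / 2 * l ^ 2) (1 / 2) (δ / 2) (1 / (2 * δ))
  have e1 : ∫ t, n t = l * s.card := by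
    rw [hn, cnt_int _ _ _ hl.le]
    simp
  have e2 : ∫ t, bx (d - c) d t = d - c := bx_int (by linarith) _
  have e5 : ∫ t, E (t + a) ^ 2 = ∫ t, E t ^ 2 := shift_int (f := fun t => E t ^ 2) a
  rw [e1, e2, e5] at k2
  have e6 : ∀ t, cnt Z x m l t - l * bx (S + l) S t = E t := by intro t; rw [hE, hN]
  simp only [e6]
  simp only [← hN, ← hn]
  rw [← k2]
  refine integral_mono k1 (nL.integrable_mul NLa) fun t => ?_
  show l * n t - 3 / 2 * l ^ 2 * bx (d - c) d t - 1 / 2 * E t ^ 2 - δ / 2 * N t ^ 2 - 1 / (2 * δ) * E (t + a) ^ 2 ≤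
    n t * N (t + a)
  have h1 : N (t + a) = l * bx (S + l) S (t + a) + E (t + a) := by rw [hE]; ring
  have h2 : N t = l * bx (S + l) S t + E t := by rw [hE]; ring
  have hb1 : bx (S + l) S t ≤ 1 := by
    rw [eB]
    exact Set.indicator_le_self' (s := Set.Ico (-l) S) (f := fun _ : ℝ => (1:ℝ)) (fun _ _ => zero_le_one) t
  -- AM-GM
  have h3 : -(δ / 2 * N t ^ 2) - 1 / (2 * δ) * E (t + a) ^ 2 ≤ n t * E (t + a) := by
    have g1 : 0 ≤ (δ * n t + E (t + a)) ^ 2 / (2 * δ) := by positivity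
    have g2 : (δ * n t + E (t + a)) ^ 2 / (2 * δ) = δ / 2 * n t ^ 2 + n t * E (t + a) + 1 / (2 * δ) * E (t + a) ^ 2 := by
      field_simp
      ring
    have g3 : n t ^ 2 ≤ N t ^ 2 := pow_le_pow_left₀ (n0 t) (nN t) 2
    have g4 := mul_le_mul_of_nonneg_left g3 (by linarith : (0:ℝ) ≤ δ / 2)
    linarith
  have h4 : l * n t - 3 / 2 * l ^ 2 * bx (d - c) d t - 1 / 2 * E t ^ 2 ≤ n t * (l * bx (S + l) S (t + a)) := by
    have hEt : 0 ≤ E t ^ 2 := sq_nonneg _
    by_cases hb : t ∈ Set.Ico c d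
    · have e7 : bx (d - c) d t = 1 := by
        unfold bx
        rw [Set.indicator_of_mem]
        rw [show d - (d - c) = c by ring]
        exact hb
      rw [e7]
      have g5 : n t ≤ l + E t := by
        have := mul_le_mul_of_nonneg_left hb1 hl.le
        linarith [nN t]
      have g6 : 0 ≤ n t * (l * bx (S + l) S (t + a)) := mul_nonneg (n0 t) (mul_nonneg hl.le (bx_nonneg _ _ _))
      have g7 := mul_le_mul_of_nonneg_left g5 hl.le
      nlinarith [sq_nonneg (l - E t)]
    · have e7 : bx (d - c) d t = 0 := by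
        unfold bx
        rw [Set.indicator_of_notMem]
        rw [show d - (d - c) = c by ring]
        exact hb
      rw [e7]
      by_cases ht : t ∈ Set.Ico (-l) S
      · have e8 : bx (S + l) S (t + a) = 1 := by
          rw [eB, Set.indicator_of_mem (hB t ht hb)]
        rw [e8]
        nlinarith
      · rw [nsupp t ht]
        nlinarith
  rw [h1]
  nlinarith

/-- the sum of squares -/
lemma sq_int : ∫ t, cnt Z x m l t ^ 2 = ∑ i ∈ Z, ∑ j ∈ Z, m i * m j * hat l (x i - x j) := by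
  have h := cnt_mul_int Z x m l Z x m 0
  simp only [add_zero] at h
  rw [← h]
  congr 1
  funext t
  ring

/-- the variance -/
lemma var_int (hl : 0 < l) (hS : 0 ≤ S) (hx : ∀ i ∈ Z, 0 ≤ x i ∧ x i ≤ S) :
    ∫ t, (cnt Z x m l t - l * bx (S + l) S t) ^ 2 =
      (∑ i ∈ Z, ∑ j ∈ Z, m i * m j * hat l (x i - x j)) - 2 * l ^ 2 * (∑ i ∈ Z, m i) + l ^ 2 * (S + l) := by
  have h1 : ∀ t, (cnt Z x m l t - l * bx (S + l) S t) ^ 2 =
      1 * cnt Z x m l t ^ 2 - (2 * l) * cnt Z x m l t - (-(l ^ 2)) * bx (S + l) S t - 0 * bx (S + l) S t - 0 * bx (S + l) S t := by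
    intro t
    by_cases ht : t ∈ Set.Ico (-l) S
    · have e8 : bx (S + l) S t = 1 := by
        unfold bx
        rw [Set.indicator_of_mem]
        rw [show S - (S + l) = -l by ring]
        exact ht
      rw [e8]
      ring
    · have e8 : bx (S + l) S t = 0 := by
        unfold bx
        rw [Set.indicator_of_notMem]
        rw [show S - (S + l) = -l by ring]
        exact ht
      rw [e8, cnt_supp Z x m l hx ht]
      ring
  have i1 : Integrable (fun t => cnt Z x m l t ^ 2) := (cnt_memLp Z x m l).integrable_sq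
  have i2 : Integrable (fun t => cnt Z x m l t) := cnt_integrable Z x m l
  have i3 : Integrable (fun t => bx (S + l) S t) := bx_integrable _ _
  obtain ⟨-, k2⟩ := int5 i1 i2 i3 i3 i3 1 (2 * l) (-(l ^ 2)) 0 0
  simp only [h1]
  rw [k2, sq_int, cnt_int _ _ _ hl.le, bx_int (by linarith)]
  ring

/-- the inequality for one shift -/
lemma core (hs : s ⊆ Z) (hm : ∀ i ∈ Z, 1 ≤ m i) (hl : 0 < l) (hx : ∀ i ∈ Z, 0 ≤ x i ∧ x i ≤ S)
    {δ : ℝ} (hδ : 0 < δ) {a : ℝ} (ha : 0 ≤ a) (haS : a ≤ S) :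
    2 * l ^ 2 * s.card - 3 * l ^ 2 * a -
      (1 + 1 / δ) * ((∑ i ∈ Z, ∑ j ∈ Z, m i * m j * hat l (x i - x j)) - 2 * l ^ 2 * (∑ i ∈ Z, m i) + l ^ 2 * (S + l)) -
      (1 + δ) * (∑ i ∈ Z, ∑ j ∈ Z, m i * m j * hat l (x i - x j)) ≤
      ∑ i ∈ s, ∑ j ∈ s, hat l (x i - x j + a) := by
  have hS : 0 ≤ S := ha.trans haS
  have h1 := mixed Z s x m l S hs hm hl hx hδ a (S - a) S (by linarith) (fun t ht hn => by
    rw [Set.mem_Ico] at ht hn ⊢
    rcases lt_or_ge t (S - a) with h | h
    · exact ⟨by linarith, by linarith⟩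
    · exact absurd ⟨h, ht.2⟩ hn)
  have h2 := mixed Z s x m l S hs hm hl hx hδ (-a) (-l) (-l + a) (by linarith) (fun t ht hn => by
    rw [Set.mem_Ico] at ht hn ⊢
    rcases lt_or_ge t (-l + a) with h | h
    · exact absurd ⟨ht.1, h⟩ hn
    · exact ⟨by linarith, by linarith⟩)
  rw [var_int Z x m l S hl hS hx, sq_int] at h1 h2
  -- the second mixed term is a translate
  have e1 : ∫ t, cnt s x (fun _ => 1) l t * cnt Z x m l (t + -a) = ∫ t, cnt Z x m l t * cnt s x (fun _ => 1) l (t + a) := by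
    rw [← shift_int (f := fun t => cnt s x (fun _ => 1) l t * cnt Z x m l (t + -a)) a]
    congr 1
    funext t
    rw [show t + a + -a = t by ring, mul_comm]
  rw [e1] at h2
  have e2 := cnt_mul_int s x (fun _ => (1:ℝ)) l s x (fun _ => (1:ℝ)) a
  simp only [one_mul] at e2
  rw [← e2]
  obtain ⟨n, hn⟩ : ∃ n : ℝ → ℝ, n = cnt s x (fun _ => 1) l := ⟨_, rfl⟩
  obtain ⟨N, hN⟩ : ∃ N : ℝ → ℝ, N = cnt Z x m l := ⟨_, rfl⟩
  have nL : MemLp n 2 volume := by rw [hn]; exact cnt_memLp _ _ _ _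
  have NL : MemLp N 2 volume := by rw [hN]; exact cnt_memLp _ _ _ _
  have hmp := measurePreserving_add_right (volume : Measure ℝ) a
  have nLa : MemLp (fun t => n (t + a)) 2 volume := nL.comp_measurePreserving hmp
  have NLa : MemLp (fun t => N (t + a)) 2 volume := NL.comp_measurePreserving hmp
  have nN : ∀ t, n t ≤ N t := by
    intro t
    rw [hn, hN]
    unfold cnt
    refine (Finset.sum_le_sum fun i hi => ?_).trans (Finset.sum_le_sum_of_subset_of_nonneg hs fun i hi _ => ?_)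
    · exact mul_le_mul_of_nonneg_right (hm i (hs hi)) (bx_nonneg _ _ _)
    · exact mul_nonneg (zero_le_one.trans (hm i hi)) (bx_nonneg _ _ _)
  have i1 : Integrable (fun t => n t * N (t + a)) := nL.integrable_mul NLa
  have i2 : Integrable (fun t => N t * n (t + a)) := NL.integrable_mul nLa
  have i3 : Integrable (fun t => N t ^ 2) := NL.integrable_sq
  have i4 : Integrable (fun t => N (t + a) ^ 2) := NLa.integrable_sq
  obtain ⟨k1, k2⟩ := int5 i1 i2 i3 i4 i4 1 (-1) (1 / 2) (1 / 2) 0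
  have e4 : ∫ t, N (t + a) ^ 2 = ∫ t, N t ^ 2 := shift_int (f := fun t => N t ^ 2) a
  have e5 : ∫ t, N t ^ 2 = ∑ i ∈ Z, ∑ j ∈ Z, m i * m j * hat l (x i - x j) := by rw [hN]; exact sq_int Z x m l
  have h3 : ∫ t, (1 * (n t * N (t + a)) - -1 * (N t * n (t + a)) - 1 / 2 * N t ^ 2 - 1 / 2 * N (t + a) ^ 2 - 0 * N (t + a) ^ 2) ≤
      ∫ t, n t * n (t + a) := by
    refine integral_mono k1 (nL.integrable_mul nLa) fun t => ?_
    show 1 * (n t * N (t + a)) - -1 * (N t * n (t + a)) - 1 / 2 * N t ^ 2 - 1 / 2 * N (t + a) ^ 2 - 0 * N (t + a) ^ 2 ≤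
      n t * n (t + a)
    have g1 : 0 ≤ (N t - n t) * (N (t + a) - n (t + a)) :=
      mul_nonneg (by linarith [nN t]) (by linarith [nN (t + a)])
    nlinarith [sq_nonneg (N t - N (t + a))]
  rw [k2, e4, e5] at h3
  rw [← hn, ← hN] at h1 h2
  rw [← hn]
  refine le_trans (le_of_eq ?_) ((add_le_add (add_le_add h1 h2) (le_refl
    (-(∑ i ∈ Z, ∑ j ∈ Z, m i * m j * hat l (x i - x j))))).trans (le_trans (le_of_eq ?_) h3))
  · field_simp
    ring
  · ring

/-- the hat functions with centres in an arithmetic progression of difference `l` -/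
lemma hat_tele {l : ℝ} (hl : 0 < l) (z : ℝ) (M : ℕ) : ∑ k ∈ Finset.range M, hat l (z + l * k) ≤ l := by
  have h1 : ∀ y : ℝ, hat l y = min (max (y + l) 0) l - min (max y 0) l := by
    intro y
    unfold hat
    rcases le_total y 0 with h | h
    · rw [abs_of_nonpos h, max_eq_right h, min_eq_left (by linarith : (0:ℝ) ≤ l), sub_zero, min_eq_left (max_le (by linarith) hl.le)]
      congr 1
      ring
    · rw [abs_of_nonneg h, max_eq_left h, max_eq_left (by linarith : (0:ℝ) ≤ y + l), min_eq_right (by linarith : l ≤ y + l)]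
      rcases le_total y l with h' | h'
      · rw [min_eq_left h', max_eq_left (by linarith)]
      · rw [min_eq_right h', max_eq_right (by linarith), sub_self]
  obtain ⟨g, hg⟩ : ∃ g : ℕ → ℝ, ∀ k : ℕ, g k = min (max (z + l * (k : ℝ)) 0) l := ⟨fun k => _, fun k => rfl⟩
  have h2 : ∀ k : ℕ, hat l (z + l * k) = g (k + 1) - g k := by
    intro k
    rw [h1, hg, hg]
    push_cast
    rw [show z + l * (k : ℝ) + l = z + l * (k + 1) by ring]
  rw [Finset.sum_congr rfl fun k _ => h2 k, Finset.sum_range_sub g, hg, hg]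
  have h3 : min (max (z + l * (M : ℝ)) 0) l ≤ l := min_le_right _ _
  have h4 : 0 ≤ min (max (z + l * ((0 : ℕ) : ℝ)) 0) l := le_min (le_max_right _ _) hl.le
  linarith

open Classical in
/-- averaging over the shifts -/
lemma aver {l α β : ℝ} (hl : 0 < l) (M : ℕ) (hM : α + l * (M + 1) ≤ β) {R : ℝ}
    (h : ∀ k ∈ Finset.range M, R ≤ ∑ i ∈ s, ∑ j ∈ s, hat l (x i - x j + (α + l * (k + 1)))) :
    M * R ≤ l * ((s ×ˢ s).filter (fun p => α < x p.1 - x p.2 ∧ x p.1 - x p.2 < β)).card := by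
  have h1 : (M : ℝ) * R ≤ ∑ k ∈ Finset.range M, ∑ i ∈ s, ∑ j ∈ s, hat l (x i - x j + (α + l * (k + 1))) := by
    have := Finset.sum_le_sum h
    rw [Finset.sum_const, Finset.card_range, nsmul_eq_mul] at this
    exact this
  refine h1.trans ?_
  have h2 : ∀ k ∈ Finset.range M, ∑ i ∈ s, ∑ j ∈ s, hat l (x i - x j + (α + l * (k + 1))) =
      ∑ p ∈ s ×ˢ s, hat l (x p.2 - x p.1 + (α + l * (k + 1))) := by
    intro k _
    rw [Finset.sum_comm, Finset.sum_product]
  rw [Finset.sum_congr rfl h2, Finset.sum_comm, Finset.card_filter]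
  push_cast
  rw [Finset.mul_sum]
  refine Finset.sum_le_sum fun p _ => ?_
  by_cases hp : α < x p.1 - x p.2 ∧ x p.1 - x p.2 < β
  · rw [if_pos hp, mul_one]
    have h3 := hat_tele hl (x p.2 - x p.1 + α + l) M
    refine le_trans (le_of_eq (Finset.sum_congr rfl fun k _ => ?_)) h3
    congr 1
    ring
  · rw [if_neg hp, mul_zero]
    refine le_of_eq (Finset.sum_eq_zero fun k hk => ?_)
    unfold hat
    rw [max_eq_right]
    rw [Finset.mem_range] at hk
    have hk' : (k : ℝ) + 1 ≤ M := by exact_mod_cast hk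
    have hk0 : (0 : ℝ) ≤ k := Nat.cast_nonneg k
    rcases not_and_or.1 hp with h4 | h4
    · rw [not_lt] at h4
      have := le_abs_self (x p.2 - x p.1 + (α + l * (k + 1)))
      nlinarith
    · rw [not_lt] at h4
      have := neg_abs_le (x p.2 - x p.1 + (α + l * (k + 1)))
      nlinarith

end

end Pool.Agent.Helper57.WN
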