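import Pool.Agent.Helper57.M.H
import Pool.Agent.Helper57.WN.Core
import Pool.Agent.Helper6.HM.Final3

/-!
MP_8958e8_nt: long windows contain at least one third of the expected number of pairs of simple zeros on the line.
-/

set_option autoImplicit false

open Finset Filter Topology MeasureTheory
open Pool.Agent.Helper57.LH Pool.Agent.Helper57.PC Pool.Agent.Helper57.Zeta Pool.Agent.Helper57.FL
open Pool.Agent.Helper6.HM
open Pool.Agent.Helper4.PU (AT)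

namespace Pool.Agent.Helper57.WN

open Classical in
/-- two thirds of the zeros are simple and on the line -/
lemma two_thirds {δ : ℝ} (hδ : 0 < δ) : ∀ᶠ T : ℝ in atTop, (2 / 3 - δ) * SN T ≤ ((US T).card : ℝ) := by
  have hth : 0 < 1 / (1 + δ / 4) := by positivity
  have hth1 : 1 / (1 + δ / 4) < 1 := by
    rw [div_lt_one (by positivity)]
    linarith
  obtain ⟨T₁, hT₁⟩ := NT_lower (δ / 8) (by linarith)
  have h1 := Pool.Agent.Helper99.HZ.fejer_limit (th := 1 / (1 + δ / 4)) hth hth1 (ε := δ / 4) (by linarith)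
  filter_upwards [h1, eventually_ge_atTop T₁, eventually_ge_atTop (3:ℝ)] with T h2 h3 h4
  have hT1 : 1 < T := by linarith
  have hS : 0 < SN T := SN_pos hT1
  have h6 := zeros_ineq (T := T) (th := 1 / (1 + δ / 4)) hT1 hth (c := fun _ _ => 0) (fun _ _ => rfl) (fun _ => rfl)
    (fun u _ => by simp)
  have h7 : (∑ ρ ∈ Zf T, ∑ σ ∈ Zf T, (mx ρ : ℂ) * mx σ * Gam T (1 / (1 + δ / 4)) (ρ - σ) ^ 2).re =
      SN T * ∫ x, Pool.Agent.Helper99.HZ.fej (1 / (1 + δ / 4)) x * ff T x := by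
    simp only [Gam_eq]
    rw [Pool.Agent.Helper99.HZ.trace_id hT1 hth, Complex.ofReal_re]
    rfl
  rw [h7] at h6
  have h8 := hT₁ T h3
  have e1 : 1 / (1 / (1 + δ / 4)) = 1 + δ / 4 := by rw [one_div_one_div]
  rw [e1] at h2
  have h9 := mul_le_mul_of_nonneg_left h2 hS.le
  have h10 : (1 - δ / 8) * SN T ≤ NT T := h8
  have h11 : SN T * (1 + δ / 4 + 1 / (1 + δ / 4) / 3 + δ / 4) ≤ SN T * (4 / 3 + δ / 2) :=
    mul_le_mul_of_nonneg_left (by linarith) hS.le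
  simp only [mul_zero, sub_self, Finset.sum_const_zero, add_zero, ne_eq, OfNat.ofNat_ne_zero, not_false_eq_true,
    zero_pow] at h6
  nlinarith

/-- the mean square of the number of zeros in windows of length `l` -/
lemma hat_sum_le (T : ℝ) (l : ℕ) :
    ∑ i ∈ Zf T, ∑ j ∈ Zf T, (mult i : ℝ) * mult j * hat l (lev T i - lev T j) ≤
      ∑ k ∈ Finset.range l, pairCount T (-((k : ℝ) + 1)) ((k : ℝ) + 1) := by
  classical
  simp only [pairCount_eq]
  conv_rhs => rw [Finset.sum_comm, Finset.sum_product]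
  refine Finset.sum_le_sum fun i _ => Finset.sum_le_sum fun j _ => ?_
  have hm : (0:ℝ) ≤ (mult i : ℝ) * mult j := by positivity
  have hnd : nd T (i, j) = lev T i - lev T j := by
    unfold nd lev
    ring
  have h1 : ∀ k : ℕ, (if nd T (i, j) ∈ Set.Icc (-((k : ℝ) + 1)) ((k : ℝ) + 1) then (mult i : ℝ) * mult j else 0) =
      (mult i : ℝ) * mult j * (if |lev T i - lev T j| ≤ (k : ℝ) + 1 then 1 else 0) := by
    intro k
    by_cases h : |lev T i - lev T j| ≤ (k : ℝ) + 1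
    · rw [if_pos h, if_pos (by rw [hnd, Set.mem_Icc, ← abs_le]; exact h), mul_one]
    · rw [if_neg h, if_neg (by rw [hnd, Set.mem_Icc, ← abs_le]; exact h), mul_zero]
  rw [Finset.sum_congr rfl fun k _ => h1 k, ← Finset.mul_sum]
  refine mul_le_mul_of_nonneg_left ?_ hm
  -- `(l - d)_+ ≤ #{k < l : d ≤ k + 1}`
  generalize hd : |lev T i - lev T j| = d
  have hd0 : 0 ≤ d := by rw [← hd]; exact abs_nonneg _
  have h2 : ∀ n : ℕ, max ((n : ℝ) - d) 0 ≤ ∑ k ∈ Finset.range n, (if d ≤ (k : ℝ) + 1 then (1:ℝ) else 0) := by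
    intro n
    induction n with
    | zero => simp [hd0]
    | succ n ih =>
      rw [Finset.sum_range_succ]
      by_cases h : d ≤ (n : ℝ) + 1
      · rw [if_pos h]
        push_cast
        refine max_le ?_ ?_
        · have := (le_max_left ((n : ℝ) - d) 0).trans ih
          linarith
        · have := (le_max_right ((n : ℝ) - d) 0).trans ih
          linarith
      · rw [if_neg h, add_zero]
        push_cast
        refine max_le ?_ ((le_max_right ((n : ℝ) - d) 0).trans ih)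
        have := (le_max_right ((n : ℝ) - d) 0).trans ih
        linarith
  unfold hat
  rw [hd]
  exact h2 l

/-- the mean square, asymptotically -/
lemma hat_sum_ev : ∃ D : ℝ, 0 < D ∧ ∀ (l : ℕ) (δ : ℝ), 0 < δ → δ ≤ 1 → ∀ᶠ T : ℝ in atTop,
    ∑ i ∈ Zf T, ∑ j ∈ Zf T, (mult i : ℝ) * mult j * hat l (lev T i - lev T j) ≤
      ((l : ℝ) ^ 2 * (1 + δ) + D * l) * SN T := by
  obtain ⟨C, hC, hU⟩ := Pool.Agent.Helper57.UV.ULP_holds
  obtain ⟨C', hC', hN⟩ := Pool.Agent.Helper57.UV.NLP_holds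
  obtain ⟨D, hD, h⟩ := Pool.Agent.Helper4.PF.bounded_full (c := 1/100) (θ := 15/16) (by norm_num)
    (by norm_num) (by norm_num) (by norm_num) hC hC' hU hN
  refine ⟨2 + 2 * D, by linarith, fun l δ hδ hδ1 => ?_⟩
  have hpow : ∀ᶠ T : ℝ in atTop, 2 * (l : ℝ) ≤ T ^ (1/100 : ℝ) :=
    (tendsto_rpow_atTop (by norm_num)).eventually_ge_atTop _
  have hsq : ∀ᶠ T : ℝ in atTop, (l : ℝ) ≤ Real.sqrt T := Real.tendsto_sqrt_atTop.eventually_ge_atTop _
  have hAT : ∀ᶠ T : ℝ in atTop, Pool.Agent.Helper4.PU.CAT / δ ≤ Real.log T :=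
    Real.tendsto_log_atTop.eventually_ge_atTop _
  filter_upwards [h, hpow, hsq, hAT, eventually_ge_atTop (3:ℝ)] with T h1 h2 h3 h4 h5
  have hT1 : 1 < T := by linarith
  have hS : 0 < SN T := SN_pos hT1
  have hL : 0 < Real.log T := Real.log_pos hT1
  have h6 := Pool.Agent.Helper4.PU.AT_close h5
  have h7 : AT T ≤ 1 + δ := by
    have h8 : Pool.Agent.Helper4.PU.CAT / Real.log T ≤ δ := by
      rw [div_le_iff₀ hL]
      rw [div_le_iff₀ hδ] at h4
      linarith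
    linarith [le_abs_self (AT T - 1)]
  refine (hat_sum_le T l).trans ?_
  have h9 : ∀ k ∈ Finset.range l, pairCount T (-((k : ℝ) + 1)) ((k : ℝ) + 1) ≤
      (2 * ((k : ℝ) + 1) * (1 + δ) + 2 * D) * SN T := by
    intro k hk
    rw [Finset.mem_range] at hk
    have hk' : (k : ℝ) + 1 ≤ l := by exact_mod_cast hk
    have hk0 : (0:ℝ) ≤ k := Nat.cast_nonneg k
    have g1 := h1 (-((k : ℝ) + 1)) ((k : ℝ) + 1) (by linarith) (by rw [abs_neg, abs_of_nonneg (by linarith)]; linarith)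
      (by rw [abs_of_nonneg (by linarith)]; linarith)
    have hTc : 0 < T ^ (1/100 : ℝ) := by positivity
    have g2 : (((k : ℝ) + 1) - (-((k : ℝ) + 1))) / T ^ (1/100 : ℝ) ≤ 1 := by
      rw [div_le_one hTc]
      linarith
    have g3 : D * (1 + (((k : ℝ) + 1) - (-((k : ℝ) + 1))) / T ^ (1/100 : ℝ)) * SN T ≤ D * 2 * SN T :=
      mul_le_mul_of_nonneg_right (mul_le_mul_of_nonneg_left (by linarith) hD.le) hS.le
    have g4 := (le_abs_self _).trans (g1.trans g3)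
    have g5 : SN T * AT T * (((k : ℝ) + 1) - (-((k : ℝ) + 1))) ≤ SN T * (1 + δ) * (((k : ℝ) + 1) - (-((k : ℝ) + 1))) :=
      mul_le_mul_of_nonneg_right (mul_le_mul_of_nonneg_left h7 hS.le) (by linarith)
    linarith
  refine (Finset.sum_le_sum h9).trans ?_
  rw [← Finset.sum_mul]
  refine mul_le_mul_of_nonneg_right ?_ hS.le
  have h10 : ∀ n : ℕ, ∑ k ∈ Finset.range n, (2 * ((k : ℝ) + 1) * (1 + δ) + 2 * D) = ((n : ℝ) ^ 2 + n) * (1 + δ) + 2 * D * n := by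
    intro n
    induction n with
    | zero => simp
    | succ n ih =>
      rw [Finset.sum_range_succ, ih]
      push_cast
      ring
  rw [h10]
  have hl0 : (0:ℝ) ≤ l := Nat.cast_nonneg l
  nlinarith

/-- **long windows**: for every `η > 0` there are `L` and `κ > 0` such that for large `T` every window `(α, β)` with
`β - α ≥ L`, `0 ≤ α`, `β ≤ κ S` contains at least `(1/3 - η) (β - α) S` of the differences of the simple zeros on the line -/
theorem long_windows {η : ℝ} (hη : 0 < η) : ∃ L κ T₀ : ℝ, 0 < κ ∧ ∀ T : ℝ, T₀ ≤ T → ∀ α β : ℝ, 0 ≤ α → α + L ≤ β →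
    β ≤ κ * (T * Real.log T / (2 * Real.pi)) →
    (1 / 3 - η) * (β - α) * (T * Real.log T / (2 * Real.pi)) ≤ (PO T α β).ncard := by
  classical
  obtain ⟨δ, hδd⟩ : ∃ δ : ℝ, δ = min η (1 / 3) / 21 := ⟨_, rfl⟩
  have hδ : 0 < δ := by rw [hδd]; positivity
  have hδ1 : 21 * δ ≤ 1 / 3 := by rw [hδd]; linarith [min_le_right η (1 / 3)]
  have hδ2 : 21 * δ ≤ η := by rw [hδd]; linarith [min_le_left η (1 / 3)]
  obtain ⟨D, hD, hX⟩ := hat_sum_ev
  obtain ⟨l, hl⟩ := exists_nat_ge (max 1 (D / δ ^ 2))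
  have hl1 : (1:ℝ) ≤ l := (le_max_left _ _).trans hl
  have hl2 : D ≤ δ ^ 2 * l := by
    have := (le_max_right _ _).trans hl
    rw [div_le_iff₀ (by positivity)] at this
    linarith
  obtain ⟨T₁, hT₁⟩ := NT_lower (δ ^ 2) (by positivity)
  have hδ21 : δ ^ 2 ≤ 1 := by nlinarith
  obtain ⟨T₀, hT₀⟩ := eventually_atTop.1 ((two_thirds hδ).and ((hX l (δ ^ 2) (by positivity) hδ21).and
    ((eventually_ge_atTop T₁).and ((eventually_ge_atTop (3:ℝ)).and (eventually_ge_atTop (10 * (l / δ ^ 2)))))))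
  refine ⟨2 * l / δ, δ, T₀, hδ, fun T hT α β hα hαβ hβ => ?_⟩
  obtain ⟨g1, g2, g3, g4, g5⟩ := hT₀ T hT
  have hT1 : 1 < T := by linarith
  have hS : 0 < SN T := SN_pos hT1
  have hSN : T * Real.log T / (2 * Real.pi) = SN T := rfl
  rw [hSN] at hβ ⊢
  have g6 : (1 - δ ^ 2) * SN T ≤ NT T := hT₁ T g3
  have g7 : (l : ℝ) ≤ δ ^ 2 * SN T := by
    have h12 : T / 10 ≤ SN T := by
      unfold SN
      have h1 : 1 ≤ Real.log T := by
        rw [Real.le_log_iff_exp_le (by linarith)]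
        have := Real.exp_one_lt_d9
        linarith
      have hpi := Real.pi_pos
      have hpi4 := Real.pi_lt_four
      rw [div_le_div_iff₀ (by norm_num) (by positivity)]
      have h2 : T * 1 ≤ T * Real.log T := mul_le_mul_of_nonneg_left h1 (by linarith)
      nlinarith
    have h13 : l / δ ^ 2 ≤ SN T := by linarith
    rw [div_le_iff₀ (by positivity)] at h13
    linarith
  have hl0 : (0:ℝ) < l := by linarith
  -- the values
  obtain ⟨X, hXd⟩ : ∃ X : ℝ, X = ∑ i ∈ Zf T, ∑ j ∈ Zf T, (mult i : ℝ) * mult j * hat l (lev T i - lev T j) := ⟨_, rfl⟩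
  rw [← hXd] at g2
  have hX1 : X ≤ (1 + 2 * δ ^ 2) * ((l : ℝ) ^ 2 * SN T) := by
    have h1 : D * l ≤ δ ^ 2 * l * l := mul_le_mul_of_nonneg_right hl2 hl0.le
    have h2 : ((l : ℝ) ^ 2 * (1 + δ ^ 2) + D * l) * SN T ≤ ((l : ℝ) ^ 2 * (1 + δ ^ 2) + δ ^ 2 * l * l) * SN T :=
      mul_le_mul_of_nonneg_right (by linarith) hS.le
    refine (g2.trans h2).trans (le_of_eq ?_)
    ring
  have hV1 : X - 2 * (l : ℝ) ^ 2 * NT T + (l : ℝ) ^ 2 * (SN T + l) ≤ 5 * δ ^ 2 * ((l : ℝ) ^ 2 * SN T) := by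
    have h1 : 2 * (l : ℝ) ^ 2 * ((1 - δ ^ 2) * SN T) ≤ 2 * (l : ℝ) ^ 2 * NT T :=
      mul_le_mul_of_nonneg_left g6 (by positivity)
    have h2 : (l : ℝ) ^ 2 * l ≤ (l : ℝ) ^ 2 * (δ ^ 2 * SN T) := mul_le_mul_of_nonneg_left g7 (by positivity)
    nlinarith
  have hrange : ∀ i ∈ Zf T, 0 ≤ lev T i ∧ lev T i ≤ SN T := by
    intro ρ hρ
    have h1 := (mem_Zf.1 hρ).2
    have hL : 0 < Real.log T := Real.log_pos hT1
    have hpi := Real.pi_pos
    unfold lev SN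
    constructor
    · have := h1.1
      positivity
    · gcongr
      exact h1.2
  have hcore : ∀ a : ℝ, 0 ≤ a → a ≤ δ * SN T →
      (1 / 3 - 20 * δ) * ((l : ℝ) ^ 2 * SN T) ≤ ∑ i ∈ Sc T, ∑ j ∈ Sc T, hat l (lev T i - lev T j + a) := by
    intro a ha haS
    have h1 := core (Zf T) (Sc T) (lev T) (fun ρ => (mult ρ : ℝ)) (l : ℝ) (SN T) (fun ρ hρ => (mem_Sc.1 hρ).1)
      (fun ρ hρ => by exact_mod_cast one_le_mult hρ) hl0 hrange hδ ha (haS.trans (by nlinarith))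
    refine le_trans ?_ h1
    have hNT : ∑ i ∈ Zf T, (mult i : ℝ) = NT T := rfl
    rw [hNT, ← hXd]
    rw [card_US hT1] at g1
    have h2 : 2 * (l : ℝ) ^ 2 * ((2 / 3 - δ) * SN T) ≤ 2 * (l : ℝ) ^ 2 * ((Sc T).card : ℝ) :=
      mul_le_mul_of_nonneg_left g1 (by positivity)
    have h3 : 3 * (l : ℝ) ^ 2 * a ≤ 3 * (l : ℝ) ^ 2 * (δ * SN T) := mul_le_mul_of_nonneg_left haS (by positivity)
    have h4 : (1 + 1 / δ) * (X - 2 * (l : ℝ) ^ 2 * NT T + (l : ℝ) ^ 2 * (SN T + l)) ≤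
        (1 + 1 / δ) * (5 * δ ^ 2 * ((l : ℝ) ^ 2 * SN T)) := mul_le_mul_of_nonneg_left hV1 (by positivity)
    have h5 : (1 + δ) * X ≤ (1 + δ) * ((1 + 2 * δ ^ 2) * ((l : ℝ) ^ 2 * SN T)) := mul_le_mul_of_nonneg_left hX1 (by positivity)
    have h6 : (1 + 1 / δ) * (5 * δ ^ 2 * ((l : ℝ) ^ 2 * SN T)) = (5 * δ ^ 2 + 5 * δ) * ((l : ℝ) ^ 2 * SN T) := by
      field_simp
    rw [h6] at h4
    obtain ⟨Y, hY⟩ : ∃ Y : ℝ, Y = (l : ℝ) ^ 2 * SN T := ⟨_, rfl⟩
    have hY0 : 0 ≤ Y := by rw [hY]; positivity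
    have e1 : 2 * (l : ℝ) ^ 2 * ((2 / 3 - δ) * SN T) = (4 / 3 - 2 * δ) * Y := by rw [hY]; ring
    have e2 : 3 * (l : ℝ) ^ 2 * (δ * SN T) = 3 * δ * Y := by rw [hY]; ring
    rw [e1] at h2
    rw [e2] at h3
    rw [← hY] at h4 h5 ⊢
    have h7 : (1 / 3 - 20 * δ) * Y ≤ (4 / 3 - 2 * δ) * Y - 3 * δ * Y - (5 * δ ^ 2 + 5 * δ) * Y - (1 + δ) * ((1 + 2 * δ ^ 2) * Y) := by
      have h8 : 0 ≤ δ * (9 - 7 * δ - 2 * δ ^ 2) := mul_nonneg hδ.le (by linarith)
      have h9 : (4 / 3 - 2 * δ) * Y - 3 * δ * Y - (5 * δ ^ 2 + 5 * δ) * Y - (1 + δ) * ((1 + 2 * δ ^ 2) * Y) -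
          (1 / 3 - 20 * δ) * Y = δ * (9 - 7 * δ - 2 * δ ^ 2) * Y := by ring
      have := mul_nonneg h8 hY0
      linarith
    linarith
  -- averaging
  have hαβ0 : 2 * l / δ ≤ β - α := by linarith
  rw [div_le_iff₀ hδ] at hαβ0
  have hαβ1 : 2 * (l : ℝ) ≤ β - α := by nlinarith
  obtain ⟨M, hM⟩ : ∃ M : ℕ, M = ⌊(β - α) / l⌋₊ - 1 := ⟨_, rfl⟩
  have hf1 : ((⌊(β - α) / l⌋₊ : ℕ) : ℝ) ≤ (β - α) / l := Nat.floor_le (div_nonneg (by linarith) hl0.le)
  have hf2 : (β - α) / l < (⌊(β - α) / l⌋₊ : ℕ) + 1 := Nat.lt_floor_add_one _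
  have hf3 : 1 ≤ ⌊(β - α) / l⌋₊ := Nat.le_floor (by
    rw [Nat.cast_one, le_div_iff₀ hl0]
    linarith)
  have hM1 : (M : ℝ) + 1 = (⌊(β - α) / l⌋₊ : ℕ) := by
    rw [hM]
    push_cast [hf3]
    ring
  have hM2 : α + l * ((M : ℝ) + 1) ≤ β := by
    rw [hM1]
    rw [le_div_iff₀ hl0] at hf1
    linarith
  have hM3 : β - α ≤ l * M + 2 * l := by
    rw [← hM1, div_lt_iff₀ hl0] at hf2
    nlinarith
  have h1 := aver (Sc T) (lev T) (l := (l : ℝ)) (α := α) (β := β) hl0 M hM2 (R := (1 / 3 - 20 * δ) * ((l : ℝ) ^ 2 * SN T))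
    (fun k hk => by
      rw [Finset.mem_range] at hk
      have hk' : (k : ℝ) + 1 ≤ M := by exact_mod_cast hk
      have hk0 : (0 : ℝ) ≤ k := Nat.cast_nonneg k
      have h2 : (l : ℝ) * ((k : ℝ) + 1) ≤ l * (M + 1) := mul_le_mul_of_nonneg_left (by linarith) hl0.le
      exact hcore _ (by positivity) (by linarith))
  have h2 : (((Sc T ×ˢ Sc T).filter (fun p => α < lev T p.1 - lev T p.2 ∧ lev T p.1 - lev T p.2 < β)).card : ℝ) =
      (PO T α β).ncard := by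
    rw [PO_eq, Set.ncard_coe_finset]
    norm_cast
    congr 1
    refine Finset.filter_congr fun p _ => ?_
    have : nd T p = lev T p.1 - lev T p.2 := by
      unfold nd lev
      ring
    rw [this, Set.mem_Ioo]
  have h3 : (M : ℝ) * ((1 / 3 - 20 * δ) * ((l : ℝ) ^ 2 * SN T)) ≤ l * ((PO T α β).ncard : ℝ) := by
    rw [← h2]
    convert h1 using 4
  have h4 : (M : ℝ) * l * ((1 / 3 - 20 * δ) * SN T) ≤ (PO T α β).ncard := by
    have h5 : (M : ℝ) * ((1 / 3 - 20 * δ) * ((l : ℝ) ^ 2 * SN T)) = l * ((M : ℝ) * l * ((1 / 3 - 20 * δ) * SN T)) := by ring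
    rw [h5] at h3
    exact le_of_mul_le_mul_left h3 hl0
  refine le_trans ?_ h4
  have h5 : (1 - δ) * (β - α) ≤ (M : ℝ) * l := by nlinarith
  have h6 : 0 ≤ (1 / 3 - 20 * δ) * SN T := mul_nonneg (by linarith) hS.le
  have h7 := mul_le_mul_of_nonneg_right h5 h6
  refine le_trans ?_ h7
  have hab : 0 ≤ (β - α) * SN T := mul_nonneg (by linarith) hS.le
  have h8 : (1 / 3 - η) ≤ (1 - δ) * (1 / 3 - 20 * δ) := by nlinarith
  calc (1 / 3 - η) * (β - α) * SN T = (1 / 3 - η) * ((β - α) * SN T) := by ring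
    _ ≤ (1 - δ) * (1 / 3 - 20 * δ) * ((β - α) * SN T) := mul_le_mul_of_nonneg_right h8 hab
    _ = (1 - δ) * (β - α) * ((1 / 3 - 20 * δ) * SN T) := by ring

end Pool.Agent.Helper57.WN
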