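import Pool.Agent.Helper57.M.H

/-!
MP_8958e8_nt: the number of pairs in a window of length `β - α`, up to a bounded error.
-/

open Filter Topology MeasureTheory Set
open Pool.Agent.Helper57.PC Pool.Agent.Helper57.LH Pool.Agent.Helper4.PU

namespace Pool.Agent.Helper57.WN

/-- **Bounded error** for all windows: `N(T; α, β) = (β - α + O(1)) T log T / 2π` for `0 ≤ α ≤ β ≤ log T`. -/
theorem bounded : ∃ C T₀ : ℝ, 0 < C ∧ ∀ T : ℝ, T₀ ≤ T → ∀ α β : ℝ, 0 ≤ α → α ≤ β → β ≤ Real.log T →
    |pairCount T α β - (β - α) * (T * Real.log T / (2 * Real.pi))| ≤ C * (T * Real.log T / (2 * Real.pi)) := by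
  obtain ⟨C, hC, hU⟩ := Pool.Agent.Helper57.UV.ULP_holds
  obtain ⟨C', hC', hN⟩ := Pool.Agent.Helper57.UV.NLP_holds
  obtain ⟨D, hD, h⟩ := Pool.Agent.Helper4.PF.bounded_full (c := 1/100) (θ := 15/16) (by norm_num)
    (by norm_num) (by norm_num) (by norm_num) hC hC' hU hN
  have hlog1 : ∀ᶠ T : ℝ in atTop, Real.log T ≤ T ^ (1/100 : ℝ) := by
    filter_upwards [(isLittleO_log_rpow_atTop (show (0:ℝ) < 1/100 by norm_num)).bound (show (0:ℝ) < 1 by norm_num),
      eventually_ge_atTop 1] with T h1 h2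
    rw [one_mul, Real.norm_eq_abs, Real.norm_eq_abs, abs_of_nonneg (Real.log_nonneg h2),
      abs_of_nonneg (by positivity)] at h1
    exact h1
  have hlog2 : ∀ᶠ T : ℝ in atTop, Real.log T ≤ Real.sqrt T := by
    filter_upwards [(isLittleO_log_rpow_atTop (show (0:ℝ) < 1/2 by norm_num)).bound (show (0:ℝ) < 1 by norm_num),
      eventually_ge_atTop 1] with T h1 h2
    rw [one_mul, Real.norm_eq_abs, Real.norm_eq_abs, abs_of_nonneg (Real.log_nonneg h2),
      abs_of_nonneg (by positivity)] at h1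
    rw [Real.sqrt_eq_rpow]
    exact h1
  obtain ⟨T₀, hT₀⟩ := eventually_atTop.mp (h.and (hlog1.and (hlog2.and (eventually_ge_atTop 3))))
  refine ⟨2 * D + Pool.Agent.Helper4.PU.CAT, T₀, by have := Pool.Agent.Helper4.PU.CAT_pos; linarith,
    fun T hT α β hα hαβ hβ => ?_⟩
  obtain ⟨h1, h2, h3, h4⟩ := hT₀ T hT
  have hL : 0 < Real.log T := Real.log_pos (by linarith)
  have hS : 0 < T * Real.log T / (2 * Real.pi) := by
    have := Real.pi_pos
    have : 0 < T := by linarith
    positivity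
  have h5 := h1 α β hαβ (by rw [abs_of_nonneg hα]; linarith) (by rw [abs_of_nonneg (by linarith)]; linarith)
  have h6 := Pool.Agent.Helper4.PU.AT_close h4
  have hSN : SN T = T * Real.log T / (2 * Real.pi) := rfl
  rw [hSN] at h5
  set S := T * Real.log T / (2 * Real.pi) with hSdef
  have hb : β - α ≤ Real.log T := by linarith
  have hb0 : 0 ≤ β - α := by linarith
  have hTc : 0 < T ^ (1/100 : ℝ) := lt_of_lt_of_le hL h2
  have h7 : (β - α) / T ^ (1/100 : ℝ) ≤ 1 := by
    rw [div_le_one hTc]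
    linarith
  have h8 : |(AT T - 1) * (β - α)| ≤ Pool.Agent.Helper4.PU.CAT := by
    rw [abs_mul, abs_of_nonneg hb0]
    calc |AT T - 1| * (β - α) ≤ Pool.Agent.Helper4.PU.CAT / Real.log T * Real.log T := by
          apply mul_le_mul h6 hb hb0
          exact div_nonneg Pool.Agent.Helper4.PU.CAT_pos.le hL.le
      _ = Pool.Agent.Helper4.PU.CAT := div_mul_cancel₀ _ hL.ne'
  have h9 : D * (1 + (β - α) / T ^ (1/100 : ℝ)) * S ≤ 2 * D * S := by
    have : D * (1 + (β - α) / T ^ (1/100 : ℝ)) ≤ D * 2 := mul_le_mul_of_nonneg_left (by linarith) hD.le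
    calc D * (1 + (β - α) / T ^ (1/100 : ℝ)) * S ≤ D * 2 * S := mul_le_mul_of_nonneg_right this hS.le
      _ = 2 * D * S := by ring
  calc |pairCount T α β - (β - α) * S| = |(pairCount T α β - S * AT T * (β - α)) + (AT T - 1) * (β - α) * S| := by
        congr 1
        ring
    _ ≤ |pairCount T α β - S * AT T * (β - α)| + |(AT T - 1) * (β - α) * S| := abs_add_le _ _
    _ ≤ 2 * D * S + Pool.Agent.Helper4.PU.CAT * S := by
        apply add_le_add (h5.trans h9)
        rw [abs_mul, abs_of_pos hS]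
        exact mul_le_mul_of_nonneg_right h8 hS.le
    _ = (2 * D + Pool.Agent.Helper4.PU.CAT) * S := by ring

end Pool.Agent.Helper57.WN
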