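import Mathlib

/-!
Windows away from zero (MP_8958e8_nt): the combinatorial part. A finite set `A` of real numbers in `[0, X]` has
many pairs with difference in `[a, a + l]`, or many disjoint close pairs.
-/

open Finset

namespace Pool.Agent.Helper57.WN

/-- Disjoint open intervals in `[0, L]` have total length at most `L`. -/
lemma disj57 {ι : Type*} (s : Finset ι) (lo hi : ι → ℝ) {L : ℝ} (hL : 0 ≤ L) (hle : ∀ i ∈ s, lo i ≤ hi i)
    (h0 : ∀ i ∈ s, 0 ≤ lo i) (h1 : ∀ i ∈ s, hi i ≤ L)
    (hd : ∀ i ∈ s, ∀ j ∈ s, i ≠ j → ∀ v, lo i < v → v < hi i → lo j < v → v < hi j → False) :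
    ∑ i ∈ s, (hi i - lo i) ≤ L := by
  have hm : MeasureTheory.volume (⋃ i ∈ s, Set.Ioo (lo i) (hi i)) = ∑ i ∈ s, ENNReal.ofReal (hi i - lo i) := by
    rw [MeasureTheory.measure_biUnion_finset]
    · exact Finset.sum_congr rfl fun i _ => Real.volume_Ioo
    · intro i hi' j hj hij
      rw [Function.onFun, Set.disjoint_left]
      rintro v ⟨hv1, hv2⟩ ⟨hv3, hv4⟩
      exact hd i hi' j hj hij v hv1 hv2 hv3 hv4
    · intro i _
      exact measurableSet_Ioo
  have hs : (⋃ i ∈ s, Set.Ioo (lo i) (hi i)) ⊆ Set.Icc 0 L := by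
    intro v hv
    simp only [Set.mem_iUnion] at hv
    obtain ⟨i, hi', hv1, hv2⟩ := hv
    exact ⟨le_trans (h0 i hi') hv1.le, le_trans hv2.le (h1 i hi')⟩
  have h2 := MeasureTheory.measure_mono (μ := MeasureTheory.volume) hs
  rw [hm, Real.volume_Icc, sub_zero, ← ENNReal.ofReal_sum_of_nonneg
    (fun i hi' => sub_nonneg.mpr (hle i hi'))] at h2
  exact (ENNReal.ofReal_le_ofReal_iff hL).mp h2

/-- **The combinatorial part.** -/
theorem comb {A : Finset ℝ} {X a l : ℝ} (hA : ∀ x ∈ A, 0 ≤ x ∧ x ≤ X) (hX : 0 ≤ X) (ha : 0 ≤ a) (hl : 0 < l)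
    (r : ℝ → ℝ) (hr : ∀ d, 0 ≤ d → 1 ≤ min (2 * d / l) 1 + r d) :
    ∃ M : Finset (ℝ × ℝ), (∀ p ∈ M, p.1 ∈ A ∧ p.2 ∈ A ∧ p.1 < p.2) ∧
      (∀ p ∈ M, ∀ q ∈ M, p ≠ q → p.1 ≠ q.1 ∧ p.1 ≠ q.2 ∧ p.2 ≠ q.1 ∧ p.2 ≠ q.2) ∧
      (#A : ℝ) ≤ #{p ∈ A ×ˢ A | a ≤ p.2 - p.1 ∧ p.2 - p.1 ≤ a + l} + 1 + (X + a) / l +
        2 * ∑ p ∈ M, r (p.2 - p.1) := by
  classical
  set U : Finset ℝ := A.filter (fun x => ∀ y ∈ A, ¬ (a ≤ y - x ∧ y - x ≤ a + l)) with hU
  set P : Finset (ℝ × ℝ) := {p ∈ A ×ˢ A | a ≤ p.2 - p.1 ∧ p.2 - p.1 ≤ a + l} with hP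
  have hXa : 0 ≤ (X + a) / l := by positivity
  -- the points outside of `U`
  have hAU : #A ≤ #P + #U := by
    have h1 : #(A.filter (fun x => ¬ ∀ y ∈ A, ¬ (a ≤ y - x ∧ y - x ≤ a + l))) ≤ #P := by
      have h2 : A.filter (fun x => ¬ ∀ y ∈ A, ¬ (a ≤ y - x ∧ y - x ≤ a + l)) ⊆ P.image Prod.fst := by
        intro x hx
        rw [mem_filter] at hx
        obtain ⟨hx1, hx2⟩ := hx
        push Not at hx2
        obtain ⟨y, hy, hy1, hy2⟩ := hx2
        rw [mem_image]
        refine ⟨(x, y), ?_, rfl⟩
        rw [hP, mem_filter, mem_product]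
        exact ⟨⟨hx1, hy⟩, hy1, hy2⟩
      exact (card_le_card h2).trans card_image_le
    have h3 := card_filter_add_card_filter_not (s := A) (fun x => ∀ y ∈ A, ¬ (a ≤ y - x ∧ y - x ≤ a + l))
    rw [← hU] at h3
    omega
  have hAU' : (#A : ℝ) ≤ #P + #U := by exact_mod_cast hAU
  -- the enumeration of `U`
  obtain ⟨k, hk⟩ : ∃ k, #U = k := ⟨_, rfl⟩
  rcases Nat.eq_zero_or_pos k with hk0 | hkpos
  · refine ⟨∅, by simp, by simp, ?_⟩
    rw [hk, hk0, Nat.cast_zero] at hAU'
    rw [sum_empty]
    linarith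
  obtain ⟨n, rfl⟩ : ∃ n, k = n + 1 := ⟨k - 1, by omega⟩
  set e := U.orderEmbOfFin hk with he
  set x : ℕ → ℝ := fun i => if h : i < n + 1 then e ⟨i, h⟩ else X with hx
  have hxm : ∀ i, i < n + 1 → x i ∈ U := by
    intro i hi
    rw [hx]
    simp only [hi, dif_pos]
    exact orderEmbOfFin_mem U hk _
  have hlt : ∀ i j, i < j → j < n + 1 → x i < x j := by
    intro i j hij hj
    have hi : i < n + 1 := by omega
    rw [hx]
    simp only [hi, hj, dif_pos]
    exact e.strictMono (by simpa using hij)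
  have hUA : ∀ y ∈ U, y ∈ A := fun y hy => (mem_filter.mp hy).1
  have hxA : ∀ i, i < n + 1 → x i ∈ A := fun i hi => hUA _ (hxm i hi)
  -- the total length
  have hlen : ∑ i ∈ range n, min (2 * (x (i + 1) - x i)) l ≤ X + a := by
    set lo : ℕ ⊕ ℕ → ℝ := fun c => Sum.elim (fun i => x i + a) (fun i => x i) c with hlo
    set hi : ℕ ⊕ ℕ → ℝ := fun c => Sum.elim (fun i => x i + a + min (x (i + 1) - x i) l)
      (fun i => if x (i + 1) - x i < l then x (i + 1) else x i) c with hhi
    have h1 : ∑ c ∈ (range n).disjSum (range n), (hi c - lo c) ≤ X + a := by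
      apply disj57
      · linarith
      · intro c hc
        rw [mem_disjSum] at hc
        rcases hc with ⟨i, hi', rfl⟩ | ⟨i, hi', rfl⟩
        · rw [mem_range] at hi'
          have h2 := hlt i (i + 1) (by omega) (by omega)
          have h3 : 0 ≤ min (x (i + 1) - x i) l := le_min (by linarith) hl.le
          simp only [hlo, hhi, Sum.elim_inl]
          linarith
        · rw [mem_range] at hi'
          have h2 := hlt i (i + 1) (by omega) (by omega)
          simp only [hlo, hhi, Sum.elim_inr]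
          split_ifs <;> linarith
      · intro c hc
        rw [mem_disjSum] at hc
        rcases hc with ⟨i, hi', rfl⟩ | ⟨i, hi', rfl⟩
        · rw [mem_range] at hi'
          have h2 := (hA _ (hxA i (by omega))).1
          simp only [hlo, Sum.elim_inl]
          linarith
        · rw [mem_range] at hi'
          have h2 := (hA _ (hxA i (by omega))).1
          simp only [hlo, Sum.elim_inr]
          exact h2
      · intro c hc
        rw [mem_disjSum] at hc
        rcases hc with ⟨i, hi', rfl⟩ | ⟨i, hi', rfl⟩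
        · rw [mem_range] at hi'
          have h2 := (hA _ (hxA (i + 1) (by omega))).2
          have h3 : min (x (i + 1) - x i) l ≤ x (i + 1) - x i := min_le_left _ _
          simp only [hhi, Sum.elim_inl]
          linarith
        · rw [mem_range] at hi'
          have h2 := (hA _ (hxA (i + 1) (by omega))).2
          have h3 := (hA _ (hxA i (by omega))).2
          simp only [hhi, Sum.elim_inr]
          split_ifs <;> linarith
      · -- disjointness
        have hmono : ∀ i j, i < j → j < n + 1 → x (i + 1) ≤ x j := by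
          intro i j hij hj
          rcases Nat.lt_or_ge (i + 1) j with h2 | h2
          · exact (hlt _ _ h2 hj).le
          · have : j = i + 1 := by omega
            rw [this]
        -- V against V
        have hVV : ∀ i j, i < j → j < n → ∀ v, v < x i + a + min (x (i + 1) - x i) l → x j + a < v → False := by
          intro i j hij hj v hv1 hv2
          have h2 := hmono i j hij (by omega)
          have h3 : min (x (i + 1) - x i) l ≤ x (i + 1) - x i := min_le_left _ _
          linarith
        have hWW : ∀ i j, i < j → j < n → ∀ v, v < (if x (i + 1) - x i < l then x (i + 1) else x i) →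
            x j < v → False := by
          intro i j hij hj v hv1 hv2
          have h2 := hmono i j hij (by omega)
          have h3 := hlt i (i + 1) (by omega) (by omega)
          split_ifs at hv1 <;> linarith
        have hVW : ∀ i j, i < n → j < n → ∀ v, x i + a < v → v < x i + a + min (x (i + 1) - x i) l →
            x j < v → v < (if x (j + 1) - x j < l then x (j + 1) else x j) → False := by
          intro i j hi' hj v hv1 hv2 hv3 hv4
          split_ifs at hv4 with h2
          · have h3 : min (x (i + 1) - x i) l ≤ l := min_le_right _ _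
            have hUi := (mem_filter.mp (hxm i (by omega))).2
            have h4 := hUi _ (hxA j (by omega))
            have h5 := hUi _ (hxA (j + 1) (by omega))
            by_cases h6 : a ≤ x j - x i
            · exact h4 ⟨h6, by linarith⟩
            · by_cases h7 : x (j + 1) - x i ≤ a + l
              · exact h5 ⟨by linarith, h7⟩
              · push Not at h6 h7
                linarith
          · linarith
        intro c hc c' hc' hne v h2 h3 h4 h5
        rw [mem_disjSum] at hc hc'
        rcases hc with ⟨i, hi', rfl⟩ | ⟨i, hi', rfl⟩ <;> rcases hc' with ⟨j, hj', rfl⟩ | ⟨j, hj', rfl⟩ <;>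
          rw [mem_range] at hi' hj' <;> simp only [hlo, hhi, Sum.elim_inl, Sum.elim_inr] at h2 h3 h4 h5
        · rcases Nat.lt_trichotomy i j with h6 | h6 | h6
          · exact hVV i j h6 hj' v h3 h4
          · exact hne (by rw [h6])
          · exact hVV j i h6 hi' v h5 h2
        · exact hVW i j hi' hj' v h2 h3 h4 h5
        · exact hVW j i hj' hi' v h4 h5 h2 h3
        · rcases Nat.lt_trichotomy i j with h6 | h6 | h6
          · exact hWW i j h6 hj' v h3 h4
          · exact hne (by rw [h6])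
          · exact hWW j i h6 hi' v h5 h2
    rw [sum_disjSum] at h1
    simp only [hlo, hhi, Sum.elim_inl, Sum.elim_inr] at h1
    rw [← sum_add_distrib] at h1
    refine le_trans (sum_le_sum fun i hi' => ?_) h1
    rw [mem_range] at hi'
    have h2 := hlt i (i + 1) (by omega) (by omega)
    rcases lt_or_ge (x (i + 1) - x i) l with h3 | h3
    · rw [min_eq_left h3.le, if_pos h3]
      have := min_le_left (2 * (x (i + 1) - x i)) l
      linarith
    · rw [min_eq_right h3, if_neg (not_lt.mpr h3)]
      have := min_le_right (2 * (x (i + 1) - x i)) l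
      linarith
  -- the count
  have hcount : (n : ℝ) ≤ (X + a) / l + ∑ i ∈ range n, r (x (i + 1) - x i) := by
    have h1 : (n : ℝ) = ∑ i ∈ range n, (1 : ℝ) := by simp
    have h2 : ∑ i ∈ range n, min (2 * (x (i + 1) - x i) / l) 1 ≤ (X + a) / l := by
      rw [le_div_iff₀ hl, sum_mul]
      refine le_trans (sum_le_sum fun i hi' => ?_) hlen
      rw [min_mul_of_nonneg _ _ hl.le, div_mul_cancel₀ _ hl.ne', one_mul]
    rw [h1]
    refine le_trans (sum_le_sum (f := fun _ => (1 : ℝ))
      (g := fun i => min (2 * (x (i + 1) - x i) / l) 1 + r (x (i + 1) - x i)) fun i hi' => ?_) ?_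
    · rw [mem_range] at hi'
      have h3 := hlt i (i + 1) (by omega) (by omega)
      exact hr _ (by linarith)
    · rw [sum_add_distrib]
      linarith
  -- the matchings
  have hmatch : ∀ b : ℕ, ∃ M : Finset (ℝ × ℝ), (∀ p ∈ M, p.1 ∈ A ∧ p.2 ∈ A ∧ p.1 < p.2) ∧
      (∀ p ∈ M, ∀ q ∈ M, p ≠ q → p.1 ≠ q.1 ∧ p.1 ≠ q.2 ∧ p.2 ≠ q.1 ∧ p.2 ≠ q.2) ∧
      ∑ p ∈ M, r (p.2 - p.1) = ∑ i ∈ (range n).filter (fun i => i % 2 = b), r (x (i + 1) - x i) := by
    intro b
    set I := (range n).filter (fun i => i % 2 = b) with hI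
    have hinjx : ∀ i j, i < n + 1 → j < n + 1 → x i = x j → i = j := by
      intro i j hi' hj h
      rcases Nat.lt_trichotomy i j with h6 | h6 | h6
      · exact absurd h (hlt i j h6 hj).ne
      · exact h6
      · exact absurd h (hlt j i h6 hi').ne'
    have hinj : Set.InjOn (fun i => (x i, x (i + 1))) (I : Set ℕ) := by
      intro i hi' j hj h
      rw [mem_coe, hI, mem_filter, mem_range] at hi' hj
      exact hinjx i j (by omega) (by omega) (Prod.mk.inj h).1
    refine ⟨I.image (fun i => (x i, x (i + 1))), ?_, ?_, ?_⟩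
    · intro p hp
      rw [mem_image] at hp
      obtain ⟨i, hi', rfl⟩ := hp
      rw [hI, mem_filter, mem_range] at hi'
      exact ⟨hxA _ (by omega), hxA _ (by omega), hlt _ _ (by omega) (by omega)⟩
    · intro p hp q hq hne
      rw [mem_image] at hp hq
      obtain ⟨i, hi', rfl⟩ := hp
      obtain ⟨j, hj, rfl⟩ := hq
      rw [hI, mem_filter, mem_range] at hi' hj
      have hij : i ≠ j := by
        rintro rfl
        exact hne rfl
      refine ⟨?_, ?_, ?_, ?_⟩ <;> intro h <;> have h7 := hinjx _ _ (by omega) (by omega) h <;> omega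
    · rw [sum_image hinj]
  obtain ⟨M0, h00, h01, h02⟩ := hmatch 0
  obtain ⟨M1, h10, h11, h12⟩ := hmatch 1
  have hsplit : ∑ i ∈ range n, r (x (i + 1) - x i) = ∑ p ∈ M0, r (p.2 - p.1) + ∑ p ∈ M1, r (p.2 - p.1) := by
    rw [h02, h12, ← sum_filter_add_sum_filter_not (range n) (fun i => i % 2 = 0)]
    congr 1
    apply sum_congr _ fun _ _ => rfl
    apply filter_congr
    intro i _
    omega
  rw [hk] at hAU'
  push_cast at hAU'
  rcases le_total (∑ p ∈ M0, r (p.2 - p.1)) (∑ p ∈ M1, r (p.2 - p.1)) with h | h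
  · exact ⟨M1, h10, h11, by linarith⟩
  · exact ⟨M0, h00, h01, by linarith⟩

end Pool.Agent.Helper57.WN
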